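import Pool.Agent.Work.MP_10b086_an.H5.Full
import Pool.Agent.Work.MP_10b086_an.Wild.Final
import Pool.Agent.Work.MP_10b086_an.Trace

/-!
# Positive functionals and traces on Banach *-algebras satisfying (H1), ..., (H5): the answer

All algebras are complex Banach algebras, not necessarily unital, with an involution which is not
assumed to be continuous. `Sq A` is the span of the products `a b`, `Cu A` the span of the products
`a b c`; `IsPositive f` says that `f (a* a)` is a nonnegative real number for every `a`, and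
`IsTrace f` that in addition `f (a b) = f (b a)` for all `a`, `b`.

(a) For none of the five hypotheses are all positive functionals continuous.
(b) For (H1), (H2), (H3), (H4) all traces are continuous, for (H5) they are not.
-/

namespace Pool.Agent.Results.MP_10b086_an.Answer

open Pool.Agent.Work.MP_10b086_an

universe u

/-- The hypothesis (H`i`), `i = 1, ..., 5`, for the complex Banach algebra `A`. -/
def Hyp (i : ℕ) (A : Type u) [NonUnitalNormedRing A] [NormedSpace ℂ A] : Prop :=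
  (i = 1 ∧ Sq A = ⊤) ∨
  (i = 2 ∧ IsClosed (Cu A : Set A) ∧ FiniteDimensional ℂ (A ⧸ Cu A)) ∨
  (i = 3 ∧ TopologicalSpace.SeparableSpace A ∧ Sq A = ⊤) ∨
  (i = 4 ∧ TopologicalSpace.SeparableSpace A ∧ FiniteDimensional ℂ (A ⧸ Sq A)) ∨
  (i = 5 ∧ (∀ a b : A, a * b = b * a) ∧ IsClosed (Sq A : Set A) ∧
    FiniteDimensional ℂ (A ⧸ Sq A))

/-- Every positive functional on every Banach *-algebra satisfying (H`i`) is continuous. -/
def PosCont (i : ℕ) : Prop :=
  ∀ (A : Type u) [NonUnitalNormedRing A] [NormedSpace ℂ A] [IsScalarTower ℂ A A]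
    [SMulCommClass ℂ A A] [CompleteSpace A] [StarRing A] [StarModule ℂ A], Hyp i A →
    ∀ f : A →ₗ[ℂ] ℂ, IsPositive f → Continuous f

/-- Every trace on every Banach *-algebra satisfying (H`i`) is continuous. -/
def TraceCont (i : ℕ) : Prop :=
  ∀ (A : Type u) [NonUnitalNormedRing A] [NormedSpace ℂ A] [IsScalarTower ℂ A A]
    [SMulCommClass ℂ A A] [CompleteSpace A] [StarRing A] [StarModule ℂ A], Hyp i A →
    ∀ f : A →ₗ[ℂ] ℂ, IsTrace f → Continuous f

/-- The complete answer to Q1: (a) is false for (H1), (H2), (H3), (H4), (H5); (b) is true for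
(H1), (H2), (H3), (H4) and false for (H5). -/
theorem result :
    (¬ PosCont.{0} 1 ∧ ¬ PosCont.{0} 2 ∧ ¬ PosCont.{0} 3 ∧ ¬ PosCont.{0} 4 ∧ ¬ PosCont.{0} 5) ∧
    (TraceCont.{u} 1 ∧ TraceCont.{u} 2 ∧ TraceCont.{u} 3 ∧ TraceCont.{u} 4 ∧ ¬ TraceCont.{0} 5) := by
  obtain ⟨A, i1, i2, i3, i4, i5, i6, i7, i8, h1, f, h2, h3⟩ := Wild.wild
  have h4 : Cu A = ⊤ := Cu_eq_top h1
  obtain ⟨A', j1, j2, j3, j4, j5, j6, j7, j8, ⟨k1, k2⟩, f', k3, k4⟩ :=
    Pool.Agent.H5.final
  refine ⟨⟨?_, ?_, ?_, ?_, ?_⟩, ?_, ?_, ?_, ?_, ?_⟩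
  · intro h
    exact h3 (h A (Or.inl ⟨rfl, h1⟩) f h2)
  · intro h
    refine h3 (h A (Or.inr (Or.inl ⟨rfl, ?_, ?_⟩)) f h2)
    · rw [h4]; exact isClosed_univ
    · rw [h4]; infer_instance
  · intro h
    exact h3 (h A (Or.inr (Or.inr (Or.inl ⟨rfl, i8, h1⟩))) f h2)
  · intro h
    refine h3 (h A (Or.inr (Or.inr (Or.inr (Or.inl ⟨rfl, i8, ?_⟩)))) f h2)
    rw [h1]; infer_instance
  · intro h
    exact k4 (h A' (Or.inr (Or.inr (Or.inr (Or.inr ⟨rfl, fun a b => mul_comm a b, k1, k2⟩))))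
      f' k3)
  · intro A _ _ _ _ _ _ _ hA f hf
    rcases hA with ⟨_, hA⟩ | ⟨h, _⟩ | ⟨h, _⟩ | ⟨h, _⟩ | ⟨h, _⟩
    · exact trace_continuous_of_Sq hf hA
    all_goals exact absurd h (by norm_num)
  · intro A _ _ _ _ _ _ _ hA f hf
    rcases hA with ⟨h, _⟩ | ⟨_, hA⟩ | ⟨h, _⟩ | ⟨h, _⟩ | ⟨h, _⟩
    · exact absurd h (by norm_num)
    · exact trace_continuous_of_Cu hf hA.1 hA.2
    all_goals exact absurd h (by norm_num)
  · intro A _ _ _ _ _ _ _ hA f hf
    rcases hA with ⟨h, _⟩ | ⟨h, _⟩ | ⟨_, hA⟩ | ⟨h, _⟩ | ⟨h, _⟩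
    · exact absurd h (by norm_num)
    · exact absurd h (by norm_num)
    · exact trace_continuous_of_Sq hf hA.2
    all_goals exact absurd h (by norm_num)
  · intro A _ _ _ _ _ _ _ hA f hf
    rcases hA with ⟨h, _⟩ | ⟨h, _⟩ | ⟨h, _⟩ | ⟨_, hA1, hA2⟩ | ⟨h, _⟩
    · exact absurd h (by norm_num)
    · exact absurd h (by norm_num)
    · exact absurd h (by norm_num)
    · exact trace_continuous_of_separable hf hA2
    · exact absurd h (by norm_num)
  · intro h
    exact k4 (h A' (Or.inr (Or.inr (Or.inr (Or.inr ⟨rfl, fun a b => mul_comm a b, k1, k2⟩))))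
      f' ⟨k3, fun a b => by rw [mul_comm]⟩)

end Pool.Agent.Results.MP_10b086_an.Answer
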