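import Pool.Agent.Work.MP_10b086_an.SepPos

/-!
# Positive functionals on separable Banach *-algebras with `A²` cofinite

`A` is a complex Banach *-algebra, not necessarily unital, whose involution is not assumed to be
continuous. `Sq A` is the span of the products `a b`, `SepInv A` is the separating space of the
involution (the set of the limits of the sequences `a_n*` with `a_n → 0`), and `IsPositive f` says
that `f (a* a)` is a nonnegative real number for every `a`.
-/

namespace Pool.Agent.Results.MP_10b086_an.Separable

open Pool.Agent.Work.MP_10b086_an

/-- On a separable Banach *-algebra with `A²` cofinite a positive functional `f` is continuous if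
and only if `f (s* s) = 0` for all `s` in the separating space of the involution; in particular
every positive functional is continuous if the involution is continuous. -/
theorem result (A : Type*) [NonUnitalNormedRing A] [NormedSpace ℂ A] [IsScalarTower ℂ A A]
    [SMulCommClass ℂ A A] [CompleteSpace A] [StarRing A] [StarModule ℂ A]
    (h1 : TopologicalSpace.SeparableSpace A) (h2 : FiniteDimensional ℂ (A ⧸ Sq A))
    (f : A →ₗ[ℂ] ℂ) (hf : IsPositive f) :
    (Continuous f ↔ ∀ s ∈ SepInv A, f (star s * s) = 0) ∧
      (Continuous (star : A → A) → Continuous f) := by
  refine ⟨⟨fun h s hs => zero_of_continuous hf h hs, positive_continuous_of_Sep hf h2⟩, ?_⟩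
  intro h3
  have : ContinuousStar A := ⟨h3⟩
  exact positive_continuous_of_separable hf h2

end Pool.Agent.Results.MP_10b086_an.Separable
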